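import Pool.Agent.Helper35.SHQ.ASM
import Pool.Agent.Helper35.SHQ.LEV
import Pool.Agent.Helper12.SHQ.LZ
import Pool.Agent.Helper13.SHQ.PEN
import Pool.Agent.Helper34.SHQ.GR
import Pool.Agent.Helper47.SHQ.LNG
import Pool.Agent.Helper49.SHQ.NUM
import Pool.Agent.Helper67.SHQ.LIM
import Pool.Agent.Helper7.SHQ.TOP
import Pool.Agent.Helper74.SHQ.SUM
import Pool.Agent.Helper76.SHQ.DEF
import Pool.Agent.Helper84.SHQ.SHF
import Pool.Agent.Helper88.SHQ.PRE
import Pool.Agent.Helper92.SHQ.FIN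
import Pool.Agent.Helper93.SHQ.SEM

/-!
# SHQ, all rows together
-/

set_option autoImplicit false

namespace SHQ
open Filter Topology

theorem main_pen : ST_PEN := st_PEN st_SHF

theorem main_gr : ST_GR := st_GR main_pen st_PRE st_LNG (st_SEM st_SHF)

/-- the growth rate of the ternary shuffle squares is at least `8.15` -/
theorem main : ∃ L : ℝ, 8.15 ≤ L ∧
    Tendsto (fun n : ℕ => ((S3 n).ncard : ℝ) ^ (1 / (n : ℝ))) atTop (𝓝 L) :=
  st_ASM (st_LIM st_DEF main_pen) (st_FIN st_DEF main_pen) (st_LEV st_LNG main_gr) (st_LZ main_gr)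
    (st_TOP main_gr) st_SUM st_NUM

end SHQ
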