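import Pool.Agent.Helper35.SHQ.Sheet

/-!
# SHQ, row SUM: clauses 2 and 3 of `Good`, and the sum over words of length `n`
-/

namespace SHQ
open scoped ENNReal
open Filter Topology

/-- sum over the words of length `n` -/
noncomputable def sumb_L : ℕ → (List Bool → ℝ≥0∞) → ℝ≥0∞
  | 0, φ => φ []
  | n + 1, φ => sumb_L n (fun y => φ (true :: y)) + sumb_L n (fun y => φ (false :: y))

theorem sumb_split (φ : List Bool → ℝ≥0∞) :
    φ [] + (∑' y, φ (true :: y) + ∑' y, φ (false :: y)) ≤ ∑' y, φ y := by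
  rw [ENNReal.tsum_eq_add_tsum_ite (f := φ) []]
  refine add_le_add le_rfl ?_
  have h1 : (∑' y, φ (true :: y) + ∑' y, φ (false :: y)) =
      ∑' q : Bool × List Bool, (fun y : List Bool => if y = [] then 0 else φ y) (q.1 :: q.2) := by
    rw [ENNReal.tsum_prod', tsum_bool, add_comm]
    simp
  rw [h1]
  have hinj : Function.Injective (fun q : Bool × List Bool => q.1 :: q.2) := by
    rintro ⟨a, l⟩ ⟨b, l'⟩ h
    simp only [List.cons.injEq] at h
    exact Prod.ext h.1 h.2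
  refine le_trans (ENNReal.tsum_comp_le_tsum_of_injective hinj
    (fun y : List Bool => if y = [] then 0 else φ y)) (le_of_eq ?_)
  refine tsum_congr fun y => ?_
  by_cases hy : y = [] <;> simp [hy]

theorem sumb_tsum (Y : ℕ) : ∀ φ : List Bool → ℝ≥0∞,
    ∑ n ∈ Finset.range Y, sumb_L n φ ≤ ∑' y, φ y := by
  induction Y with
  | zero => intro φ; simp
  | succ Y ih =>
    intro φ
    rw [Finset.sum_range_succ']
    refine le_trans ?_ (sumb_split φ)
    rw [add_comm]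
    refine add_le_add le_rfl ?_
    have : ∀ n, sumb_L (n + 1) φ =
        sumb_L n (fun y => φ (true :: y)) + sumb_L n (fun y => φ (false :: y)) := fun _ => rfl
    simp only [this, Finset.sum_add_distrib]
    exact add_le_add (ih _) (ih _)

theorem sumb_wt (n : ℕ) : ∀ (c : ℕ → ℝ≥0∞) (ψ : List Bool → ℝ≥0∞),
    sumb_L n (fun y => c y.length * ψ y) = c n * sumb_L n ψ := by
  induction n with
  | zero => intro c ψ; rfl
  | succ n ih =>
    intro c ψ
    have h1 := ih (fun k => c (k + 1)) (fun y => ψ (true :: y))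
    have h2 := ih (fun k => c (k + 1)) (fun y => ψ (false :: y))
    simp only [sumb_L, List.length_cons]
    rw [h1, h2, mul_add]

theorem sumb_mul (n : ℕ) (c : ℝ≥0∞) (ψ : List Bool → ℝ≥0∞) :
    sumb_L n (fun y => c * ψ y) = c * sumb_L n ψ := sumb_wt n (fun _ => c) ψ

/-- sums of the values of single words -/
theorem sumb_B (o : Om) (p1 p2 : Fin 3) (f : Fin 3 → ℝ≥0∞) (n : ℕ) (b : Fin 3) :
    sumb_L (n + 1) (fun y => ValC o b (fix (y.map (lt p1 p2))) f) =
      w o b p1 * sumb_L n (fun y => ValC o p1 (fix (y.map (lt p1 p2))) f) +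
      w o b p2 * sumb_L n (fun y => ValC o p2 (fix (y.map (lt p1 p2))) f) := by
  have e1 : ∀ y : List Bool, ValC o b (fix ((true :: y).map (lt p1 p2))) f =
      w o b p1 * ValC o p1 (fix (y.map (lt p1 p2))) f := fun y => rfl
  have e2 : ∀ y : List Bool, ValC o b (fix ((false :: y).map (lt p1 p2))) f =
      w o b p2 * ValC o p2 (fix (y.map (lt p1 p2))) f := fun y => rfl
  rw [sumb_L]
  simp only [e1, e2]
  rw [sumb_mul, sumb_mul]

/-- rational numbers -/
noncomputable def sumb_e (x : ℚ) : ℝ≥0∞ := ENNReal.ofReal (x : ℝ)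

theorem sumb_e_mono {x y : ℚ} (h : x ≤ y) : sumb_e x ≤ sumb_e y :=
  ENNReal.ofReal_le_ofReal (by exact_mod_cast h)

theorem sumb_e_add {x y : ℚ} (hx : 0 ≤ x) (hy : 0 ≤ y) : sumb_e (x + y) = sumb_e x + sumb_e y := by
  unfold sumb_e
  rw [Rat.cast_add, ENNReal.ofReal_add (by exact_mod_cast hx) (by exact_mod_cast hy)]

theorem sumb_e_mul {x y : ℚ} (hx : 0 ≤ x) : sumb_e (x * y) = sumb_e x * sumb_e y := by
  unfold sumb_e
  rw [Rat.cast_mul, ENNReal.ofReal_mul (by exact_mod_cast hx)]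

theorem sumb_e_one : sumb_e 1 = 1 := by simp [sumb_e]

theorem sumb_e_zero : sumb_e 0 = 0 := by simp [sumb_e]

theorem sumb_fl (x : ℚ) : fl x ≤ x := by
  unfold fl
  rw [div_le_iff₀ (by norm_num)]
  exact Int.floor_le _

theorem sumb_stt_succ (n : ℕ) (z σ : ℚ) (r : Q3) :
    stt (n + 1) z σ r = Stt.next z r (stt n z σ r) := by
  unfold stt
  rw [Function.iterate_succ_apply']

theorem sumb_nn {z σ : ℚ} {r : Q3} (hz : 0 < z) (hσ : 1 ≤ σ) (ha : 0 ≤ r.al) (hb : 0 ≤ r.be)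
    (n : ℕ) : 0 ≤ (stt n z σ r).zp ∧ 0 ≤ (stt n z σ r).hh ∧ 0 ≤ (stt n z σ r).q ∧
      0 ≤ (stt n z σ r).qp ∧ 0 ≤ (stt n z σ r).sq ∧ 0 ≤ (stt n z σ r).sqp ∧
      0 ≤ (stt n z σ r).t := by
  induction n with
  | zero =>
    have h0 : (0 : ℚ) ≤ σ := le_trans zero_le_one hσ
    exact ⟨hz.le, h0, h0, zero_le_one, le_rfl, le_rfl, le_rfl⟩
  | succ n ih =>
    obtain ⟨h1, h2, h3, h4, h5, h6, h7⟩ := ih
    rw [sumb_stt_succ]
    simp only [Stt.next]
    refine ⟨?_, ?_, ?_, ?_, ?_, ?_, ?_⟩ <;> positivity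

theorem sumb_zp (n : ℕ) (z σ : ℚ) (r : Q3) (hz : 0 < z) :
    sumb_e (stt n z σ r).zp = sumb_e z ^ (n + 1) := by
  induction n with
  | zero => simp [stt, Stt.init]
  | succ n ih =>
    rw [sumb_stt_succ]
    simp only [Stt.next]
    rw [mul_comm, sumb_e_mul hz.le, ih, pow_succ' _ (n + 1)]

theorem sumb_hh (n : ℕ) (z σ : ℚ) (r : Q3) (hb : 0 ≤ r.be) :
    sumb_e (stt n z σ r).hh = sumb_e r.be ^ n * sumb_e σ := by
  induction n with
  | zero => simp [stt, Stt.init]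
  | succ n ih =>
    rw [sumb_stt_succ]
    simp only [Stt.next]
    rw [sumb_e_mul hb, ih, pow_succ', mul_assoc]

theorem sumb_t (n : ℕ) {z σ : ℚ} {r : Q3} (hz : 0 < z) (hσ : 1 ≤ σ) (ha : 0 ≤ r.al)
    (hb : 0 ≤ r.be) : sumb_e (stt n z σ r).t =
      ∑ k ∈ Finset.range n, sumb_e z ^ (k + 1) * (sumb_e r.be ^ k * sumb_e σ) := by
  induction n with
  | zero => simp [stt, Stt.init, sumb_e]
  | succ n ih =>
    obtain ⟨h1, h2, h3, h4, h5, h6, h7⟩ := sumb_nn hz hσ ha hb n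
    rw [sumb_stt_succ]
    simp only [Stt.next]
    rw [sumb_e_add h7 (mul_nonneg h1 h2), sumb_e_mul h1, ih, sumb_zp n z σ r hz,
      sumb_hh n z σ r hb, Finset.sum_range_succ]

theorem sumb_w1 (r : Q3) {b a : Fin 3} (h : b ≠ a) : w r.om b a = sumb_e r.al := by
  unfold w
  rw [if_neg h]
  rfl

theorem sumb_w2 (r : Q3) (b : Fin 3) : w r.om b b = sumb_e r.be := by
  unfold w
  rw [if_pos rfl]
  rfl

theorem sumb_fin (p : Fin 3) : p ≠ p + 1 ∧ p ≠ p + 2 ∧ p + 1 ≠ p + 2 := by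
  revert p; decide

theorem sumb_fin3 (p b : Fin 3) : b = p ∨ b = p + 1 ∨ b = p + 2 := by
  revert p b; decide

/-- the values of the words over `{p + 1, p + 2}` -/
theorem sumb_q (n : ℕ) {z σ : ℚ} {r : Q3} (ha : 0 ≤ r.al) (hb : 0 ≤ r.be) (p : Fin 3) :
    sumb_L n (fun y => ValC r.om (p + 1) (fix (y.map (lt (p + 1) (p + 2)))) (psi (sumb_e σ) p)) =
      sumb_e (stt n z σ r).q ∧
    sumb_L n (fun y => ValC r.om (p + 2) (fix (y.map (lt (p + 1) (p + 2)))) (psi (sumb_e σ) p)) =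
      sumb_e (stt n z σ r).q := by
  obtain ⟨f1, f2, f3⟩ := sumb_fin p
  induction n with
  | zero =>
    constructor
    · show psi (sumb_e σ) p (p + 1) = _
      rw [psi, if_neg f1]
      rfl
    · show psi (sumb_e σ) p (p + 2) = _
      rw [psi, if_neg f2]
      rfl
  | succ n ih =>
    rw [sumb_B, sumb_B, ih.1, ih.2, sumb_stt_succ]
    simp only [Stt.next]
    rw [sumb_w2, sumb_w2, sumb_w1 r f3, sumb_w1 r f3.symm, sumb_e_mul (add_nonneg ha hb),
      sumb_e_add ha hb]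
    constructor <;> ring

theorem sumb_qp (n : ℕ) {z σ : ℚ} {r : Q3} (ha : 0 ≤ r.al) (hb : 0 ≤ r.be) (p : Fin 3) :
    sumb_L n (fun y => ValC r.om p (fix (y.map (lt (p + 1) (p + 2)))) (psi (sumb_e σ) p)) =
      sumb_e (stt n z σ r).qp := by
  obtain ⟨f1, f2, f3⟩ := sumb_fin p
  cases n with
  | zero =>
    show psi (sumb_e σ) p p = _
    rw [psi, if_pos rfl]
    exact sumb_e_one.symm
  | succ n =>
    obtain ⟨g1, g2⟩ := sumb_q n (z := z) (σ := σ) ha hb p
    rw [sumb_B, g1, g2, sumb_stt_succ]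
    simp only [Stt.next]
    rw [sumb_w1 r f1, sumb_w1 r f2, mul_assoc, sumb_e_mul (by norm_num), sumb_e_mul ha,
      ← two_mul]
    congr 1
    simp [sumb_e]

theorem sumb_sq (n : ℕ) {z σ : ℚ} {r : Q3} (hz : 0 < z) (hσ : 1 ≤ σ) (ha : 0 ≤ r.al)
    (hb : 0 ≤ r.be) : sumb_e (stt n z σ r).sq =
      ∑ k ∈ Finset.range n, sumb_e z ^ (k + 1) * sumb_e (stt k z σ r).q := by
  induction n with
  | zero => simp [stt, Stt.init, sumb_e]
  | succ n ih =>
    obtain ⟨h1, h2, h3, h4, h5, h6, h7⟩ := sumb_nn hz hσ ha hb n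
    rw [sumb_stt_succ]
    simp only [Stt.next]
    rw [sumb_e_add h5 (mul_nonneg h1 h3), sumb_e_mul h1, ih, sumb_zp n z σ r hz,
      Finset.sum_range_succ]

theorem sumb_sqp (n : ℕ) {z σ : ℚ} {r : Q3} (hz : 0 < z) (hσ : 1 ≤ σ) (ha : 0 ≤ r.al)
    (hb : 0 ≤ r.be) : sumb_e (stt n z σ r).sqp =
      ∑ k ∈ Finset.range n, sumb_e z ^ (k + 1) * sumb_e (stt k z σ r).qp := by
  induction n with
  | zero => simp [stt, Stt.init, sumb_e]
  | succ n ih =>
    obtain ⟨h1, h2, h3, h4, h5, h6, h7⟩ := sumb_nn hz hσ ha hb n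
    rw [sumb_stt_succ]
    simp only [Stt.next]
    rw [sumb_e_add h6 (mul_nonneg h1 h4), sumb_e_mul h1, ih, sumb_zp n z σ r hz,
      Finset.sum_range_succ]

/-- weights pulled out, for the sums over words of length less than `Y` -/
theorem sumb_wsum (Y : ℕ) (z : ℝ≥0∞) (ψ : List Bool → ℝ≥0∞) :
    ∑ n ∈ Finset.range Y, z ^ (n + 1) * sumb_L n ψ ≤ ∑' y : List Bool, z ^ (y.length + 1) * ψ y := by
  refine le_trans (le_of_eq ?_) (sumb_tsum Y _)
  refine Finset.sum_congr rfl fun n _ => ?_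
  exact (sumb_wt n (fun k => z ^ (k + 1)) ψ).symm

/-- clause 2 of `Good` -/
theorem sumb_be (Y : ℕ) (z σ : ℚ) (r : Q3) (hz : 0 < z) (hσ : 1 ≤ σ) (ha : 0 ≤ r.al)
    (hb : 0 ≤ r.be) : ∀ p b : Fin 3,
      (stepQ Y z σ r).om.be * psi (ENNReal.ofReal (σ : ℝ)) p b ≤
      ∑' y : List Bool, ENNReal.ofReal (z : ℝ) ^ (y.length + 1) *
        ValC r.om b (fix (y.map (lt (p + 1) (p + 2)))) (psi (ENNReal.ofReal (σ : ℝ)) p) := by
  intro p b
  obtain ⟨f1, f2, f3⟩ := sumb_fin p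
  have h0 : (0 : ℚ) < σ := lt_of_lt_of_le zero_lt_one hσ
  refine le_trans ?_ (sumb_wsum Y (ENNReal.ofReal (z : ℝ))
    (fun y => ValC r.om b (fix (y.map (lt (p + 1) (p + 2)))) (psi (ENNReal.ofReal (σ : ℝ)) p)))
  show sumb_e (stepQ Y z σ r).be * psi (sumb_e σ) p b ≤ ∑ n ∈ Finset.range Y,
    sumb_e z ^ (n + 1) * sumb_L n (fun y => ValC r.om b (fix (y.map (lt (p + 1) (p + 2))))
      (psi (sumb_e σ) p))
  have hle : (stepQ Y z σ r).be ≤ min (stt Y z σ r).sqp ((stt Y z σ r).sq / σ) := sumb_fl _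
  have hq : b ≠ p → (∀ n, sumb_L n (fun y => ValC r.om b (fix (y.map (lt (p + 1) (p + 2))))
      (psi (sumb_e σ) p)) = sumb_e (stt n z σ r).q) →
      sumb_e (stepQ Y z σ r).be * psi (sumb_e σ) p b ≤ ∑ n ∈ Finset.range Y,
        sumb_e z ^ (n + 1) * sumb_L n (fun y => ValC r.om b (fix (y.map (lt (p + 1) (p + 2))))
          (psi (sumb_e σ) p)) := by
    intro hbp h
    simp only [h]
    rw [← sumb_sq Y hz hσ ha hb, psi, if_neg (Ne.symm hbp), mul_comm, ← sumb_e_mul h0.le]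
    refine sumb_e_mono ?_
    have h1 : (stepQ Y z σ r).be ≤ (stt Y z σ r).sq / σ := hle.trans (min_le_right _ _)
    rw [le_div_iff₀ h0] at h1
    rw [mul_comm]
    exact h1
  rcases sumb_fin3 p b with h | h | h
  · subst h
    simp only [sumb_qp _ (z := z) (σ := σ) ha hb]
    rw [← sumb_sqp Y hz hσ ha hb, psi, if_pos rfl, mul_one]
    exact sumb_e_mono (hle.trans (min_le_left _ _))
  · subst h
    exact hq (Ne.symm f1) fun n => (sumb_q n ha hb p).1
  · subst h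
    exact hq (Ne.symm f2) fun n => (sumb_q n ha hb p).2

theorem sumb_rep (r : Q3) (f : Fin 3 → ℝ≥0∞) (c : Fin 3) (j : ℕ) :
    ValC r.om c (fix (List.replicate j c)) f = sumb_e r.be ^ j * f c := by
  induction j with
  | zero => simp [fix, ValC]
  | succ j ih =>
    have e : ValC r.om c (fix (List.replicate (j + 1) c)) f =
      w r.om c c * ValC r.om c (fix (List.replicate j c)) f := rfl
    rw [e, ih, sumb_w2, pow_succ', mul_assoc]

/-- clause 3 of `Good` -/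
theorem sumb_ka (Y : ℕ) (z σ : ℚ) (r : Q3) (hz : 0 < z) (hσ : 1 ≤ σ) (ha : 0 ≤ r.al)
    (hb : 0 ≤ r.be) : ∀ s a c b : Fin 3, c ≠ a →
      (stepQ Y z σ r).om.ka * psi (ENNReal.ofReal (σ : ℝ)) s b ≤
      ∑' j : ℕ, ENNReal.ofReal (z : ℝ) ^ (j + 1) *
        ValC r.om b (fix (List.replicate j c)) (psi (ENNReal.ofReal (σ : ℝ)) a) := by
  intro s a c b hca
  have h0 : (0 : ℚ) < σ := lt_of_lt_of_le zero_lt_one hσ
  have e1 : (1 : ℝ≥0∞) ≤ sumb_e σ := by
    rw [← sumb_e_one]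
    exact sumb_e_mono hσ
  have hpsi : ∀ x y : Fin 3, psi (sumb_e σ) x y ≤ sumb_e σ ∧ 1 ≤ psi (sumb_e σ) x y := by
    intro x y
    unfold psi
    split_ifs
    · exact ⟨e1, le_rfl⟩
    · exact ⟨le_rfl, e1⟩
  have hle : (stepQ Y z σ r).ka ≤ min (stt Y z σ r).t (z + r.al * z * (stt Y z σ r).t) / σ :=
    sumb_fl _
  rw [le_div_iff₀ h0] at hle
  show sumb_e (stepQ Y z σ r).ka * psi (sumb_e σ) s b ≤ ∑' j : ℕ, sumb_e z ^ (j + 1) *
    ValC r.om b (fix (List.replicate j c)) (psi (sumb_e σ) a)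
  have hac : psi (sumb_e σ) a c = sumb_e σ := by
    unfold psi
    rw [if_neg (Ne.symm hca)]
  have hstart : sumb_e (stepQ Y z σ r).ka * psi (sumb_e σ) s b ≤
      sumb_e (min (stt Y z σ r).t (z + r.al * z * (stt Y z σ r).t)) := by
    refine le_trans (mul_le_mul' le_rfl (hpsi s b).1) ?_
    rw [mul_comm, ← sumb_e_mul h0.le]
    refine sumb_e_mono ?_
    rw [mul_comm]
    exact hle
  refine le_trans hstart ?_
  by_cases hbc : b = c
  · subst hbc
    refine le_trans (sumb_e_mono (min_le_left _ _)) ?_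
    rw [sumb_t Y hz hσ ha hb]
    refine le_trans (le_of_eq ?_) (ENNReal.sum_le_tsum (Finset.range Y))
    refine Finset.sum_congr rfl fun k _ => ?_
    rw [sumb_rep, hac]
  · refine le_trans (sumb_e_mono (min_le_right _ _)) ?_
    obtain ⟨h1, h2, h3, h4, h5, h6, h7⟩ := sumb_nn hz hσ ha hb Y
    rw [sumb_e_add hz.le (by positivity), mul_assoc, sumb_e_mul ha, sumb_e_mul hz.le,
      sumb_t Y hz hσ ha hb]
    refine le_trans ?_ (ENNReal.sum_le_tsum (Finset.range (Y + 1)))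
    rw [Finset.sum_range_succ', add_comm]
    refine add_le_add ?_ ?_
    · rw [Finset.mul_sum, Finset.mul_sum]
      refine Finset.sum_le_sum fun k _ => le_of_eq ?_
      have e : ValC r.om b (fix (List.replicate (k + 1) c)) (psi (sumb_e σ) a) =
        w r.om b c * ValC r.om c (fix (List.replicate k c)) (psi (sumb_e σ) a) := rfl
      rw [e, sumb_rep, hac, sumb_w1 r hbc]
      ring
    · have e : ValC r.om b (fix (List.replicate 0 c)) (psi (sumb_e σ) a) =
        psi (sumb_e σ) a b := rfl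
      rw [e, zero_add, pow_one]
      calc sumb_e z = sumb_e z * 1 := (mul_one _).symm
        _ ≤ _ := mul_le_mul' le_rfl (hpsi a b).2

end SHQ
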